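import Pool.Agent.Helper56.TOF.Goals
import Mathlib

/-!
# Project TOF (MP_f32c9c_an), packet PRO: the profile functions
-/

set_option autoImplicit false

open Set Filter Topology

open scoped ContDiff

namespace Pool.Agent.Helper45.TOF

open Pool.Agent.Helper56.RZ Pool.Agent.Helper30.CIR Pool.Agent.Helper56.TOF

theorem norm_ee (τ : ℝ) : ‖ee τ‖ = 1 := by
  unfold ee
  exact Complex.norm_exp_ofReal_mul_I _

theorem ee_add (a b : ℝ) : ee (a + b) = ee a * ee b := by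
  unfold ee
  rw [← Complex.exp_add]
  congr 1
  push_cast
  ring

theorem ee_int (n : ℤ) : ee n = 1 := by
  unfold ee
  rw [← Complex.exp_int_mul_two_pi_mul_I n]
  congr 1
  push_cast
  ring

theorem ee_per (q : ℕ) (u : ℝ) : ee (q * (u + 1)) = ee (q * u) := by
  have h : (q : ℝ) * (u + 1) = q * u + ((q : ℤ) : ℝ) := by
    push_cast
    ring
  rw [h, ee_add, ee_int, mul_one]

theorem ee_per' (q : ℕ) (u : ℝ) : ee (q * (u - 1)) = ee (q * u) := by
  rw [← ee_per q (u - 1), sub_add_cancel]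

theorem contDiff_ee {n : WithTop ℕ∞} : ContDiff ℝ n ee := by
  unfold ee
  refine ContDiff.cexp ?_
  exact (Complex.ofRealCLM.contDiff.comp (contDiff_const.mul contDiff_id)).mul contDiff_const

theorem deriv_ee (τ : ℝ) : HasDerivAt ee (ee τ * ((2 * Real.pi : ℝ) * Complex.I)) τ := by
  unfold ee
  refine HasDerivAt.cexp ?_
  refine HasDerivAt.mul_const ?_ _
  have h : HasDerivAt (fun x : ℝ => 2 * Real.pi * x) (2 * Real.pi) τ := by
    simpa using (hasDerivAt_id τ).const_mul (2 * Real.pi)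
  exact h.ofReal_comp

theorem eF_zero : eF 0 = 0 := by
  unfold eF
  simp

theorem eF_le (h : StmtPSI) (z : ℂ) (hz : ‖z‖ ≤ 1 / 10) : |eF z| ≤ ‖z‖ := by
  obtain ⟨C, _, h1⟩ := h
  obtain ⟨_, _, _, _, _, _, _, h2, _⟩ :=
    (h1 1 ‖z‖ le_rfl (norm_nonneg z) hz).2 (z.arg / (2 * Real.pi))
  have h3 : ((‖z‖ : ℝ) : ℂ) * ee ((1 : ℕ) * (z.arg / (2 * Real.pi))) = z := by
    have h4 : 2 * Real.pi * (((1 : ℕ) : ℝ) * (z.arg / (2 * Real.pi))) = z.arg := by
      have := Real.pi_pos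
      push_cast
      field_simp
    unfold ee
    rw [h4]
    exact Complex.norm_mul_exp_arg_mul_I z
  rw [h3] at h2
  exact h2

theorem contDiffAt_eF {n : WithTop ℕ∞} {z : ℂ} (hz : ‖z‖ < 1) : ContDiffAt ℝ n eF z := by
  have h1 : ContDiffAt ℝ n (fun w : ℂ => Complex.log (1 + w)) z := by
    have h2 : ContDiffAt ℂ n Complex.log (1 + z) :=
      Complex.contDiffAt_log (Complex.mem_slitPlane_of_norm_lt_one hz)
    exact (h2.restrict_scalars ℝ).comp z (contDiffAt_const.add contDiffAt_id)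
  have h3 : eF = fun w : ℂ => (Complex.log (1 + w)).im / Real.pi := by
    funext w
    unfold eF
    rw [Complex.log_im]
  rw [h3]
  exact (Complex.imCLM.contDiff.contDiffAt.comp z h1).div_const _

/-- derivative of `eF (z ee κ)` -/
theorem deriv_eF {z : ℂ} (hz : ‖z‖ < 1) (τ : ℝ) :
    ∃ d : ℝ, HasDerivAt (fun x : ℝ => eF (z * ee x)) d τ ∧ |d| ≤ 2 * ‖z‖ / (1 - ‖z‖) := by
  have h0 : ‖z * ee τ‖ < 1 := by rw [norm_mul, norm_ee, mul_one]; exact hz
  have h1 : HasDerivAt (fun x : ℝ => 1 + z * ee x)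
      (z * (ee τ * ((2 * Real.pi : ℝ) * Complex.I))) τ :=
    ((deriv_ee τ).const_mul z).const_add 1
  have h2 := h1.clog_real (Complex.mem_slitPlane_of_norm_lt_one h0)
  have h3 := (Complex.imCLM.hasFDerivAt.comp_hasDerivAt τ h2).div_const Real.pi
  refine ⟨(z * (ee τ * ((2 * Real.pi : ℝ) * Complex.I)) / (1 + z * ee τ)).im / Real.pi, ?_, ?_⟩
  · refine h3.congr_of_eventuallyEq (Eventually.of_forall fun x => ?_)
    unfold eF
    show _ = (Complex.log (1 + z * ee x)).im / Real.pi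
    rw [Complex.log_im]
  · have hpi := Real.pi_pos
    rw [abs_div, abs_of_pos hpi, div_le_iff₀ hpi]
    refine (Complex.abs_im_le_norm _).trans ?_
    rw [norm_div, norm_mul, norm_mul, norm_mul, norm_ee, Complex.norm_I, Complex.norm_real,
      Real.norm_eq_abs, abs_of_pos (by positivity : 0 < 2 * Real.pi)]
    have h4 : 1 - ‖z‖ ≤ ‖1 + z * ee τ‖ := by
      have h5 : ‖(1 : ℂ)‖ ≤ ‖1 + z * ee τ‖ + ‖z * ee τ‖ := by
        calc ‖(1 : ℂ)‖ = ‖(1 + z * ee τ) - z * ee τ‖ := by rw [add_sub_cancel_right]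
          _ ≤ _ := norm_sub_le _ _
      rw [norm_one, norm_mul z, norm_ee, mul_one] at h5
      linarith
    have h6 : 0 < 1 - ‖z‖ := by linarith
    rw [show 2 * ‖z‖ / (1 - ‖z‖) * Real.pi = ‖z‖ * (1 * (2 * Real.pi * 1)) / (1 - ‖z‖) by ring]
    exact div_le_div_of_nonneg_left (by positivity) h6 h4

/-- the derivative of the smooth transition is bounded -/
theorem rho_bound : ∃ C : ℝ, 0 ≤ C ∧ ∀ x, |deriv Real.smoothTransition x| ≤ C := by
  have hc : Continuous (deriv Real.smoothTransition) :=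
    (Real.smoothTransition.contDiff (n := 1)).continuous_deriv le_rfl
  obtain ⟨C, hC⟩ := (isCompact_Icc : IsCompact (Icc (0 : ℝ) 1)).exists_bound_of_continuousOn
    hc.continuousOn
  refine ⟨max C 0, le_max_right _ _, fun x => ?_⟩
  by_cases h0 : x < 0
  · have h1 : Real.smoothTransition =ᶠ[𝓝 x] fun _ => 0 := by
      filter_upwards [gt_mem_nhds h0] with y hy
      exact Real.smoothTransition.zero_of_nonpos hy.le
    rw [h1.deriv_eq]
    simp
  · by_cases h2 : 1 < x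
    · have h1 : Real.smoothTransition =ᶠ[𝓝 x] fun _ => 1 := by
        filter_upwards [lt_mem_nhds h2] with y hy
        exact Real.smoothTransition.one_of_one_le hy.le
      rw [h1.deriv_eq]
      simp
    · exact (hC x ⟨not_lt.1 h0, not_lt.1 h2⟩).trans (le_max_left _ _)

/-- the equation of `κ` -/
noncomputable def G (p : (ℂ × ℝ × ℝ) × ℝ) : ℝ :=
  p.2 - Real.smoothTransition (p.1.2.1 + p.1.2.2 * p.2) * eF (p.1.1 * ee p.2)

theorem contDiffAt_G {p : (ℂ × ℝ × ℝ) × ℝ} (hp : ‖p.1.1‖ < 1) : ContDiffAt ℝ ∞ G p := by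
  unfold G
  refine ContDiffAt.sub contDiffAt_snd (ContDiffAt.mul ?_ ?_)
  · refine (Real.smoothTransition.contDiff.contDiffAt).comp p ?_
    fun_prop
  · have h0 : ‖p.1.1 * ee p.2‖ < 1 := by rw [norm_mul, norm_ee, mul_one]; exact hp
    refine ContDiffAt.comp p (contDiffAt_eF h0) ?_
    refine ContDiffAt.mul ?_ ?_
    · fun_prop
    · exact (contDiff_ee.contDiffAt).comp p contDiffAt_snd

theorem G_hasDerivAt {C : ℝ} (hC : ∀ x, |deriv Real.smoothTransition x| ≤ C) (h : StmtPSI)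
    {x : ℂ × ℝ × ℝ} (h1 : ‖x.1‖ ≤ 1 / 10) (h2 : ‖x.1‖ * (8 * (C + 1)) ≤ 1) (h3 : |x.2.2| ≤ 2)
    (t : ℝ) : ∃ d : ℝ, HasDerivAt (fun t => G (x, t)) d t ∧ 1 / 2 ≤ d := by
  obtain ⟨d, hd, hd1⟩ := deriv_eF (lt_of_le_of_lt h1 (by norm_num)) t
  have hr : HasDerivAt (fun t : ℝ => Real.smoothTransition (x.2.1 + x.2.2 * t))
      (deriv Real.smoothTransition (x.2.1 + x.2.2 * t) * x.2.2) t := by
    have h4 : HasDerivAt (fun t : ℝ => x.2.1 + x.2.2 * t) x.2.2 t := by
      simpa using ((hasDerivAt_id t).const_mul x.2.2).const_add x.2.1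
    have h5 : DifferentiableAt ℝ Real.smoothTransition (x.2.1 + x.2.2 * t) :=
      (Real.smoothTransition.contDiff (n := 1)).differentiable one_ne_zero _
    exact h5.hasDerivAt.comp t h4
  refine ⟨_, (hasDerivAt_id t).sub (hr.mul hd), ?_⟩
  have hC0 : 0 ≤ C := (abs_nonneg _).trans (hC 0)
  have hz := norm_nonneg x.1
  have hF : |eF (x.1 * ee t)| ≤ ‖x.1‖ := by
    have h6 : ‖x.1 * ee t‖ = ‖x.1‖ := by rw [norm_mul, norm_ee, mul_one]
    have := eF_le h (x.1 * ee t) (by rw [h6]; exact h1)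
    rwa [h6] at this
  have hd2 : |d| ≤ 1 / 4 := by
    refine hd1.trans ?_
    rw [div_le_iff₀ (by linarith)]
    linarith
  have h7 : |deriv Real.smoothTransition (x.2.1 + x.2.2 * t) * x.2.2 * eF (x.1 * ee t)| ≤ 1 / 4 := by
    rw [abs_mul, abs_mul]
    calc _ ≤ C * 2 * ‖x.1‖ := by gcongr; exact hC _
      _ ≤ 1 / 4 := by nlinarith
  have h8 : |Real.smoothTransition (x.2.1 + x.2.2 * t) * d| ≤ 1 / 4 := by
    rw [abs_mul, abs_of_nonneg (Real.smoothTransition.nonneg _)]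
    calc _ ≤ 1 * (1 / 4 : ℝ) := by
          gcongr
          exact Real.smoothTransition.le_one _
      _ = 1 / 4 := by norm_num
  have h9 := (abs_le.1 h7).2
  have h10 := (abs_le.1 h8).2
  linarith

theorem abs_R_le (h : StmtPSI) {x : ℂ × ℝ × ℝ} (h1 : ‖x.1‖ ≤ 1 / 10) (a t : ℝ) :
    |Real.smoothTransition a * eF (x.1 * ee t)| ≤ ‖x.1‖ := by
  have h6 : ‖x.1 * ee t‖ = ‖x.1‖ := by rw [norm_mul, norm_ee, mul_one]
  have h7 := eF_le h (x.1 * ee t) (by rw [h6]; exact h1)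
  rw [h6] at h7
  rw [abs_mul, abs_of_nonneg (Real.smoothTransition.nonneg _)]
  calc _ ≤ 1 * ‖x.1‖ := by
        gcongr
        exact Real.smoothTransition.le_one _
    _ = ‖x.1‖ := one_mul _

open scoped Classical in
/-- the solution `κ` -/
noncomputable def kp (x : ℂ × ℝ × ℝ) : ℝ := if h : ∃ t, G (x, t) = 0 then h.choose else 0

theorem kp_spec {x : ℂ × ℝ × ℝ} (h : ∃ t, G (x, t) = 0) : G (x, kp x) = 0 := by
  unfold kp
  rw [dif_pos h]
  exact h.choose_spec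

/-- the good points -/
def Dm (z0 : ℝ) : Set (ℂ × ℝ × ℝ) := {v | ‖v.1‖ < z0 ∧ |v.2.2| < 2}

theorem isOpen_Dm (z0 : ℝ) : IsOpen (Dm z0) := by
  have h1 : Continuous (fun v : ℂ × ℝ × ℝ => ‖v.1‖) := by fun_prop
  have h2 : Continuous (fun v : ℂ × ℝ × ℝ => |v.2.2|) := by fun_prop
  exact (isOpen_lt h1 continuous_const).inter (isOpen_lt h2 continuous_const)

section

variable {C z0 : ℝ} (hC : ∀ x, |deriv Real.smoothTransition x| ≤ C) (h : StmtPSI)
  (hz0 : z0 ≤ 1 / 10) (hz1 : z0 * (8 * (C + 1)) ≤ 1)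

include hC h hz0 hz1

theorem G_deriv {x : ℂ × ℝ × ℝ} (hx : x ∈ Dm z0) (t : ℝ) :
    ∃ d : ℝ, HasDerivAt (fun t => G (x, t)) d t ∧ 1 / 2 ≤ d := by
  have hC0 : 0 ≤ C := (abs_nonneg _).trans (hC 0)
  have h1 : ‖x.1‖ < z0 := hx.1
  have h2 : |x.2.2| < 2 := hx.2
  refine G_hasDerivAt hC h (h1.le.trans hz0) ?_ h2.le t
  exact (mul_le_mul_of_nonneg_right h1.le (by positivity)).trans hz1

theorem G_inj {x : ℂ × ℝ × ℝ} (hx : x ∈ Dm z0) : StrictMono (fun t => G (x, t)) := by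
  refine strictMono_of_deriv_pos fun t => ?_
  obtain ⟨d, hd, hd1⟩ := G_deriv hC h hz0 hz1 hx t
  rw [hd.deriv]
  linarith

theorem G_zero {x : ℂ × ℝ × ℝ} (hx : x ∈ Dm z0) : ∃ t, G (x, t) = 0 := by
  have hcont : Continuous (fun t => G (x, t)) := by
    rw [continuous_iff_continuousAt]
    intro t
    obtain ⟨d, hd, _⟩ := G_deriv hC h hz0 hz1 hx t
    exact hd.continuousAt
  have hx1 : ‖x.1‖ < z0 := hx.1
  have h1 : ‖x.1‖ ≤ 1 / 10 := hx1.le.trans hz0
  have h2 : G (x, -1) ≤ 0 := by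
    have := (abs_le.1 (abs_R_le h h1 (x.2.1 + x.2.2 * (-1)) (-1))).1
    unfold G
    simp only
    linarith
  have h3 : 0 ≤ G (x, 1) := by
    have := (abs_le.1 (abs_R_le h h1 (x.2.1 + x.2.2 * 1) 1)).2
    unfold G
    simp only
    linarith
  exact mem_range_of_exists_le_of_exists_ge hcont ⟨-1, h2⟩ ⟨1, h3⟩

theorem kp_eq {x : ℂ × ℝ × ℝ} (hx : x ∈ Dm z0) {t : ℝ} (ht : G (x, t) = 0) : kp x = t := by
  have h1 := kp_spec ⟨t, ht⟩
  refine (G_inj hC h hz0 hz1 hx).injective ?_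
  show G (x, kp x) = G (x, t)
  rw [h1, ht]

theorem contDiffAt_kp {x : ℂ × ℝ × ℝ} (hx : x ∈ Dm z0) : ContDiffAt ℝ ∞ kp x := by
  have hx1 : ‖x.1‖ < z0 := hx.1
  have h1 : ‖x.1‖ < 1 := by linarith
  have h0 := kp_spec (G_zero hC h hz0 hz1 hx)
  have cdf : ContDiffAt ℝ ∞ G (x, kp x) := contDiffAt_G h1
  have pn : (∞ : WithTop ℕ∞) ≠ 0 := by simp
  obtain ⟨d, hd, hd1⟩ := G_deriv hC h hz0 hz1 hx (kp x)
  have hfd : HasFDerivAt G (fderiv ℝ G (x, kp x)) (x, kp x) :=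
    (cdf.differentiableAt pn).hasFDerivAt
  have hlin : ∀ t : ℝ, (fderiv ℝ G (x, kp x) ∘L .inr ℝ (ℂ × ℝ × ℝ) ℝ) t = t * d := by
    intro t
    have h2 : HasFDerivAt (fun t : ℝ => ((x, t) : (ℂ × ℝ × ℝ) × ℝ))
        (ContinuousLinearMap.inr ℝ (ℂ × ℝ × ℝ) ℝ) (kp x) := hasFDerivAt_prodMk_right x (kp x)
    have h3 : HasFDerivAt (fun t => G (x, t)) (fderiv ℝ G (x, kp x) ∘L .inr ℝ (ℂ × ℝ × ℝ) ℝ)
        (kp x) := HasFDerivAt.comp (kp x) hfd h2
    have h4 := h3.unique hd.hasFDerivAt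
    rw [h4]
    simp
  have hinv : (fderiv ℝ G (x, kp x) ∘L .inr ℝ (ℂ × ℝ × ℝ) ℝ).IsInvertible := by
    have hd0 : d ≠ 0 := by
      intro h5
      rw [h5] at hd1
      norm_num at hd1
    refine ⟨ContinuousLinearEquiv.unitsEquivAut ℝ (Units.mk0 d hd0), ?_⟩
    ext
    rw [hlin]
    simp
  have h5 := cdf.contDiffAt_implicitFunction pn hinv
  refine h5.congr_of_eventuallyEq ?_
  filter_upwards [cdf.eventually_apply_implicitFunction pn hinv,
    (isOpen_Dm z0).mem_nhds hx] with y hy1 hy2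
  exact kp_eq hC h hz0 hz1 hy2 (hy1.trans h0)

theorem abs_kp_le {x : ℂ × ℝ × ℝ} (hx : x ∈ Dm z0) : |kp x| ≤ ‖x.1‖ := by
  have hx1 : ‖x.1‖ < z0 := hx.1
  have h0 := kp_spec (G_zero hC h hz0 hz1 hx)
  unfold G at h0
  simp only at h0
  rw [sub_eq_zero.1 h0]
  exact abs_R_le h (hx1.le.trans hz0) _ _

end

theorem kp_zero (v : ℝ × ℝ) : kp (0, v) = 0 := by
  have h1 := kp_spec (x := (0, v)) ⟨0, by unfold G; simp [eF_zero]⟩
  unfold G at h1
  simpa [eF_zero] using h1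

/-- profile function with shift `s` -/
noncomputable def Ph (s : ℝ) (x : ℂ × ℝ × ℝ) : ℝ :=
  kp x - Real.smoothTransition (x.2.1 + s + x.2.2 * kp x) * eF (x.1 * ee (kp x))

theorem Ph_pf {C z0 : ℝ} (hC : ∀ x, |deriv Real.smoothTransition x| ≤ C) (h : StmtPSI)
    (hpos : 0 < z0) (hz0 : z0 ≤ 1 / 10) (hz1 : z0 * (8 * (C + 1)) ≤ 1) (s : ℝ) (hs : s ≤ 1)
    (hs' : -1 ≤ s) : PF z0 (Ph s) := by
  refine ⟨hpos, hz0, ?_, ?_, ?_⟩
  · intro x hx
    refine ContDiffAt.contDiffWithinAt ?_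
    have hx' : x ∈ Dm z0 := hx
    have hx1 : ‖x.1‖ < z0 := hx.1
    have h1 := contDiffAt_kp hC h hz0 hz1 hx'
    unfold Ph
    refine h1.sub (ContDiffAt.mul ?_ ?_)
    · refine (Real.smoothTransition.contDiff.contDiffAt).comp x ?_
      fun_prop
    · have h0 : ‖x.1 * ee (kp x)‖ < 1 := by
        rw [norm_mul, norm_ee, mul_one]
        linarith
      refine ContDiffAt.comp x (contDiffAt_eF h0) ?_
      refine ContDiffAt.mul ?_ ?_
      · fun_prop
      · exact (contDiff_ee.contDiffAt).comp x h1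
  · intro u e
    unfold Ph
    simp [kp_zero, eF_zero]
  · intro z u e hz he hu
    have hx : (z, u, e) ∈ Dm z0 := ⟨hz, lt_of_le_of_lt he (by norm_num)⟩
    have h0 := kp_spec (G_zero hC h hz0 hz1 hx)
    have hk : |kp (z, u, e)| ≤ ‖z‖ := abs_kp_le hC h hz0 hz1 hx
    have hek : |e * kp (z, u, e)| ≤ 1 / 10 := by
      rw [abs_mul]
      calc |e| * |kp (z, u, e)| ≤ 1 * ‖z‖ := by gcongr
        _ ≤ 1 / 10 := by linarith
    have hek1 := (abs_le.1 hek).1
    have hek2 := (abs_le.1 hek).2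
    unfold G at h0
    simp only at h0
    unfold Ph
    simp only
    rcases hu with hu | hu
    · rw [Real.smoothTransition.zero_of_nonpos (by linarith), zero_mul, sub_zero] at h0
      rw [h0, Real.smoothTransition.zero_of_nonpos (by linarith)]
      simp
    · rw [Real.smoothTransition.one_of_one_le (by linarith), one_mul] at h0
      rw [Real.smoothTransition.one_of_one_le (by linarith), one_mul]
      exact h0

theorem gPRO : StmtPSI → StmtPRO := by
  intro h z1 hz1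
  obtain ⟨C, hC0, hC⟩ := rho_bound
  have hCp : 0 < 8 * (C + 1) := by linarith
  set z0 := min z1 (min (1 / 10) (1 / (8 * (C + 1)))) with hz0
  have hpos : 0 < z0 := lt_min hz1 (lt_min (by norm_num) (by positivity))
  have h10 : z0 ≤ 1 / 10 := (min_le_right _ _).trans (min_le_left _ _)
  have h8 : z0 * (8 * (C + 1)) ≤ 1 := by
    have : z0 ≤ 1 / (8 * (C + 1)) := (min_le_right _ _).trans (min_le_right _ _)
    rwa [le_div_iff₀ hCp] at this
  have hkap : ∀ (q : ℕ) (c u : ℝ), 1 ≤ q → 0 ≤ c → c < z0 →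
      kp ((c : ℂ) * ee (q * Psi q c u), Psi q c u, 1 / (q : ℝ)) =
        Real.smoothTransition u * eF ((c : ℂ) * ee (q * u)) ∧
      (c : ℂ) * ee (q * Psi q c u) * ee (Real.smoothTransition u * eF ((c : ℂ) * ee (q * u))) =
        (c : ℂ) * ee (q * u) := by
    intro q c u hq hc0 hc1
    have hq0 : (0 : ℝ) < q := by exact_mod_cast hq
    have hq1 : (1 : ℝ) ≤ q := by exact_mod_cast hq
    have h2 : (c : ℂ) * ee (q * Psi q c u) *
        ee (Real.smoothTransition u * eF ((c : ℂ) * ee (q * u))) = (c : ℂ) * ee (q * u) := by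
      rw [mul_assoc, ← ee_add]
      congr 2
      unfold Psi
      field_simp
      ring
    refine ⟨?_, h2⟩
    refine kp_eq hC h h10 h8 ⟨?_, ?_⟩ ?_
    · show ‖(c : ℂ) * ee (q * Psi q c u)‖ < z0
      rw [norm_mul, norm_ee, mul_one, Complex.norm_real, Real.norm_eq_abs, abs_of_nonneg hc0]
      exact hc1
    · show |1 / (q : ℝ)| < 2
      rw [abs_of_pos (by positivity), div_lt_iff₀ hq0]
      linarith
    · unfold G
      simp only
      rw [h2]
      have h3 : Psi q c u + 1 / q * (Real.smoothTransition u * eF ((c : ℂ) * ee (q * u))) = u := by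
        unfold Psi
        ring
      rw [h3, sub_self]
  refine ⟨z0, min_le_left _ _, Ph 1, Ph (-1), Ph_pf hC h hpos h10 h8 1 le_rfl (by norm_num),
    Ph_pf hC h hpos h10 h8 (-1) (by norm_num) le_rfl, ?_, ?_⟩
  · intro q c u hq hc0 hc1
    obtain ⟨h1, h2⟩ := hkap q c u hq hc0 hc1
    have hq0 : (0 : ℝ) < q := by exact_mod_cast hq
    unfold Ph
    simp only
    rw [h1, h2]
    have h3 : Psi q c u + 1 + 1 / q * (Real.smoothTransition u * eF ((c : ℂ) * ee (q * u))) =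
        u + 1 := by
      unfold Psi
      ring
    rw [h3]
    unfold Psi
    rw [ee_per]
    ring
  · intro q c u hq hc0 hc1
    obtain ⟨h1, h2⟩ := hkap q c u hq hc0 hc1
    have hq0 : (0 : ℝ) < q := by exact_mod_cast hq
    unfold Ph
    simp only
    rw [h1, h2]
    have h3 : Psi q c u + -1 + 1 / q * (Real.smoothTransition u * eF ((c : ℂ) * ee (q * u))) =
        u - 1 := by
      unfold Psi
      ring
    rw [h3]
    unfold Psi
    rw [ee_per']
    ring

end Pool.Agent.Helper45.TOF
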